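import Pool.Agent.X249.CSR.Two2

/-!
# Cycle stable roommates with bounded preference lists

For lists of length at most 3 the reduction is from positive exactly-one-in-three satisfiability.
The slots `l` of the clauses are numbered; the clause of `l` is a triangle of agents `v_l`, `l`
running through its three slots, with `v_l` ranking the next agent of the triangle first, an agent
`w_l` second and the previous agent of the triangle last. The edge from `v_l` to the next agent of
the triangle is part of the ring of agents of the variable of the slot `l`, in which each agent
prefers the next agent to the previous one; the ring passes `w_l`, `v_l`, the next agent `v` of the
triangle and its `w`, and then two further agents. A matching without blocking pairs uses either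
all or none of the edges of a ring which lie in triangles, and a triangle with no matched edge is a
blocking cycle. If each triangle has a matched edge, then no cycle blocks, of whatever length.

A certificate is a matching, together with a ranking of the agents in which every agent is ranked
above the agents it prefers to its partner.

For lists of length at most 2 there is a cycle stable matching iff there is no ring of odd length.
-/

namespace Pool.Agent.Results.MP_68674a_lc.BoundedListsNPHard

open Pool.Agent.NPC Pool.Agent.X249.CSR

/-- The complexity of deciding whether a roommates instance with preference lists of length at
most `L` has a cycle stable matching: polynomial time for `L ≤ 2`, NP-complete for `L ≥ 3`. -/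
theorem result : ∀ L : ℕ,
    (L ≤ 2 → InPP (CS L)) ∧ (3 ≤ L → InNPP (CS L) ∧ NPHardP (CS L)) :=
  fun L => ⟨fun hL => Two.inPP hL, fun hL => ⟨inNP L, (G3.hard hL).toNPHardP⟩⟩

end Pool.Agent.Results.MP_68674a_lc.BoundedListsNPHard
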