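import Pool.Agent.X249.CSR.Two2

/-!
# 3-cycle stable roommates with bounded preference lists

The instances with lists of length at most 3 built from instances of positive exactly-one-in-three
satisfiability have the property that a matching without blocking cycles of length at most 3
gives a solution (a ring of agents for each variable, a triangle of agents for each clause), and a
solution gives a matching without blocking cycles of any length.

For lists of length at most 2 there is a 3-cycle stable matching iff there is no ring of odd
length.
-/

namespace Pool.Agent.Results.MP_68674a_lc.ThreeCycleStable

open Pool.Agent.NPC Pool.Agent.X249.CSR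

/-- The complexity of deciding whether a roommates instance with preference lists of length at
most `L` has a 3-cycle stable matching: polynomial time for `L ≤ 2`, NP-complete for `L ≥ 3`. -/
theorem result : ∀ L : ℕ,
    (L ≤ 2 → InPP (CS3 L)) ∧ (3 ≤ L → InNPP (CS3 L) ∧ NPHardP (CS3 L)) :=
  fun L => ⟨fun hL => Two.inPP3 hL, fun hL => ⟨inNP3 L, (G3.hard3 hL).toNPHardP⟩⟩

end Pool.Agent.Results.MP_68674a_lc.ThreeCycleStable
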